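import Mathlib

/-!
# MP_434e52_an (negation of virtual W*-superrigidity for property (T) groups): common definitions

`G = W ⋊ Γ`, `H = A ⋊ Γ`, where `Γ` is a group generated by elementary matrices over `𝔽_512[t]`
acting on `E = 𝔽_512[t]³`, `X = Pol E` is the compact space of all maps `f : E → ℤ/4` with
`f 0 = 0` all of whose third differences vanish, and `W`, `A` are two groups of functions
`X → ℤ/4` (the characters of `X` for two different structures of a compact abelian group).
-/

set_option autoImplicit false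

namespace Pool.Agent.W711.CR

noncomputable section

/-! ### The three notions of the frozen statement -/

/-- property (T): a finite Kazhdan pair -/
def HasT (G : Type) [Group G] : Prop :=
  ∃ S : Finset G, ∃ ε : ℝ, 0 < ε ∧
      ∀ (E : Type) [NormedAddCommGroup E] [InnerProductSpace ℂ E] [CompleteSpace E]
        (π : G →* (E →L[ℂ] E)),
        (∀ g : G, π g ∈ unitary (E →L[ℂ] E)) →
        (∃ v : E, ‖v‖ = 1 ∧ ∀ s ∈ S, ‖(π s) v - v‖ < ε) →
        ∃ w : E, w ≠ 0 ∧ ∀ g : G, (π g) w = w

/-- the commutant of the right regular representation on `ℓ²(G)` -/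
def LG (G : Type) [Group G] : Set (lp (fun _ : G => ℂ) 2 →L[ℂ] lp (fun _ : G => ℂ) 2) :=
  {T | ∀ g : G, ∀ f f' : lp (fun _ : G => ℂ) 2,
              (∀ x : G, f' x = f (x * g)) → ∀ x : G, (T f') x = (T f) (x * g)}

/-- the two group von Neumann algebras are *-isomorphic -/
def LIso (G H : Type) [Group G] [Group H] : Prop :=
  ∃ Φ : (lp (fun _ : G => ℂ) 2 →L[ℂ] lp (fun _ : G => ℂ) 2) →
              (lp (fun _ : H => ℂ) 2 →L[ℂ] lp (fun _ : H => ℂ) 2),
        Set.BijOn Φ (LG G) (LG H) ∧
        ∀ x ∈ LG G, ∀ y ∈ LG G,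
          Φ (x + y) = Φ x + Φ y ∧ Φ (x * y) = Φ x * Φ y ∧
          Φ (star x) = star (Φ x) ∧ ∀ c : ℂ, Φ (c • x) = c • Φ x

/-- virtually isomorphic groups -/
def VIso (G H : Type) [Group G] [Group H] : Prop :=
  ∃ (F : Subgroup G) (K : Subgroup H) (_ : F.Normal) (_ : K.Normal),
        Finite F ∧ Finite K ∧
        ∃ (G₀ : Subgroup (G ⧸ F)) (H₀ : Subgroup (H ⧸ K)),
          G₀.index ≠ 0 ∧ H₀.index ≠ 0 ∧ Nonempty (G₀ ≃* H₀)

/-! ### Functions with values in `ℤ/4` and semidirect products -/

/-- functions `X → ℤ/4` -/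
abbrev Fn (X : Type) := X → ZMod 4

/-- the character `a ↦ i^a` of `ℤ/4` -/
def chi (a : ZMod 4) : ℂ := Complex.I ^ a.val

/-- the function `x ↦ i^{a(x)}` -/
def cf {X : Type} (a : Fn X) : X → ℂ := fun x => chi (a x)

/-- `(γ a)(x) = a(γ⁻¹ x)` as an additive automorphism of `Fn X` -/
def actE {Γ X : Type} [Group Γ] [MulAction Γ X] (g : Γ) : Fn X ≃+ Fn X where
  toFun a := fun x => a (g⁻¹ • x)
  invFun a := fun x => a (g • x)
  left_inv a := by funext x; simp
  right_inv a := by funext x; simp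
  map_add' _ _ := rfl

/-- a subgroup of `Fn X` which is stable under `Γ` -/
structure StSub (Γ X : Type) [Group Γ] [MulAction Γ X] where
  /-- the subgroup -/
  W : AddSubgroup (Fn X)
  stable : ∀ (g : Γ), ∀ a ∈ W, (fun x => a (g⁻¹ • x)) ∈ W

/-- the action of `Γ` on `W` -/
def rho {Γ X : Type} [Group Γ] [MulAction Γ X] (S : StSub Γ X) :
    Γ →* MulAut (Multiplicative S.W) where
  toFun g :=
    { toFun := fun a => Multiplicative.ofAdd ⟨fun x => (Multiplicative.toAdd a).1 (g⁻¹ • x),
        S.stable g _ (Multiplicative.toAdd a).2⟩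
      invFun := fun a => Multiplicative.ofAdd ⟨fun x => (Multiplicative.toAdd a).1 (g • x), by
        have := S.stable g⁻¹ _ (Multiplicative.toAdd a).2
        simpa using this⟩
      left_inv := by
        intro a
        apply Multiplicative.toAdd.injective
        apply Subtype.ext
        funext x
        simp
      right_inv := by
        intro a
        apply Multiplicative.toAdd.injective
        apply Subtype.ext
        funext x
        simp
      map_mul' := by
        intro a b
        rfl }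
  map_one' := by
    refine MulEquiv.ext fun a => Subtype.ext (funext fun x => ?_)
    change (Multiplicative.toAdd a).1 ((1 : Γ)⁻¹ • x) = (Multiplicative.toAdd a).1 x
    simp
  map_mul' := by
    intro g h
    refine MulEquiv.ext fun a => Subtype.ext (funext fun x => ?_)
    change (Multiplicative.toAdd a).1 ((g * h)⁻¹ • x) = (Multiplicative.toAdd a).1 (h⁻¹ • g⁻¹ • x)
    rw [mul_inv_rev, mul_smul]

theorem rho_apply {Γ X : Type} [Group Γ] [MulAction Γ X] (S : StSub Γ X) (g : Γ)
    (a : Multiplicative S.W) (x : X) :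
    (Multiplicative.toAdd (rho S g a)).1 x = (Multiplicative.toAdd a).1 (g⁻¹ • x) := rfl

/-- the semidirect product `W ⋊ Γ` -/
abbrev Sd {Γ X : Type} [Group Γ] [MulAction Γ X] (S : StSub Γ X) : Type :=
  Multiplicative S.W ⋊[rho S] Γ

/-- `W` and `A` span the same space of functions, on which there is a linear form `τ`
(the integral) for which both groups of characters are orthonormal. -/
structure GoodPair {X : Type} (W A : AddSubgroup (Fn X)) : Prop where
  span_eq : Submodule.span ℂ (cf '' (W : Set (Fn X))) = Submodule.span ℂ (cf '' (A : Set (Fn X)))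
  mean : ∃ τ : (X → ℂ) →ₗ[ℂ] ℂ,
    (∀ w ∈ W, (w = 0 → τ (cf w) = 1) ∧ (w ≠ 0 → τ (cf w) = 0)) ∧
    (∀ a ∈ A, (a = 0 → τ (cf a) = 1) ∧ (a ≠ 0 → τ (cf a) = 0))

/-! ### The space `Pol E` and the two groups of functions on it -/

/-- maps `f : E → ℤ/4` with `f 0 = 0` whose third differences vanish -/
def Pol (E : Type) [AddCommGroup E] : AddSubgroup (E → ZMod 4) where
  carrier := {f | f 0 = 0 ∧ ∀ x a b c : E,
    f (x + a + b + c) + f (x + a) + f (x + b) + f (x + c)
      = f (x + a + b) + f (x + a + c) + f (x + b + c) + f x}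
  zero_mem' := ⟨rfl, fun x a b c => by simp⟩
  add_mem' := by
    rintro f g ⟨hf0, hf⟩ ⟨hg0, hg⟩
    refine ⟨by simp [hf0, hg0], fun x a b c => ?_⟩
    have h1 := hf x a b c
    have h2 := hg x a b c
    simp only [Pi.add_apply]
    linear_combination h1 + h2
  neg_mem' := by
    rintro f ⟨hf0, hf⟩
    refine ⟨by simp [hf0], fun x a b c => ?_⟩
    have h1 := hf x a b c
    simp only [Pi.neg_apply]
    linear_combination -h1

/-- `(γ f)(v) = f(γ⁻¹ v)` -/
instance polAction {Γ E : Type} [Group Γ] [AddCommGroup E] [DistribMulAction Γ E] :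
    MulAction Γ (Pol E) where
  smul g f := ⟨fun v => f.1 (g⁻¹ • v), by
    refine ⟨by simpa using f.2.1, fun x a b c => ?_⟩
    have := f.2.2 (g⁻¹ • x) (g⁻¹ • a) (g⁻¹ • b) (g⁻¹ • c)
    simpa only [smul_add] using this⟩
  one_smul f := by
    apply Subtype.ext
    funext v
    change f.1 ((1 : Γ)⁻¹ • v) = f.1 v
    simp
  mul_smul g h f := by
    apply Subtype.ext
    funext v
    change f.1 ((g * h)⁻¹ • v) = f.1 (h⁻¹ • g⁻¹ • v)
    rw [mul_inv_rev, mul_smul]

theorem pol_smul_apply {Γ E : Type} [Group Γ] [AddCommGroup E] [DistribMulAction Γ E]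
    (g : Γ) (f : Pol E) (v : E) : (g • f).1 v = f.1 (g⁻¹ • v) := rfl

/-- evaluation at `v` -/
def ev {E : Type} [AddCommGroup E] (v : E) : Fn (Pol E) := fun f => f.1 v

/-- `0, 1, 2, 3 ↦ 0, 0, 2, 2` -/
def bet (a : ZMod 4) : ZMod 4 := if a = 2 ∨ a = 3 then 2 else 0

/-- the subgroup of functions generated by the evaluations at the points of `S` -/
def Wsub {E : Type} [AddCommGroup E] (S : Set E) : AddSubgroup (Fn (Pol E)) :=
  AddSubgroup.closure {w | ∃ v ∈ S, w = ev v}

/-- the subgroup of functions generated by `f ↦ 2 f(v)` and `f ↦ bet (f(v))`, `v ∈ S` -/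
def Asub {E : Type} [AddCommGroup E] (S : Set E) : AddSubgroup (Fn (Pol E)) :=
  AddSubgroup.closure {w | ∃ v ∈ S, w = 2 • ev v ∨ w = fun f => bet (f.1 v)}

theorem closure_stable {Γ X : Type} [Group Γ] [MulAction Γ X] (T : Set (Fn X))
    (hT : ∀ (g : Γ), ∀ a ∈ T, (fun x => a (g⁻¹ • x)) ∈ T) (g : Γ) (a : Fn X)
    (ha : a ∈ AddSubgroup.closure T) : (fun x => a (g⁻¹ • x)) ∈ AddSubgroup.closure T := by
  induction ha using AddSubgroup.closure_induction with
  | mem a ha => exact AddSubgroup.subset_closure (hT g a ha)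
  | zero => exact AddSubgroup.zero_mem _
  | add a b _ _ h1 h2 => exact AddSubgroup.add_mem _ h1 h2
  | neg a _ h1 => exact AddSubgroup.neg_mem _ h1

/-- `W(S)` for a `Γ`-stable set `S` -/
def WSt {Γ E : Type} [Group Γ] [AddCommGroup E] [DistribMulAction Γ E] (S : Set E)
    (hS : ∀ (g : Γ), ∀ v ∈ S, g • v ∈ S) : StSub Γ (Pol E) where
  W := Wsub S
  stable := closure_stable _ (by
    rintro g _ ⟨v, hv, rfl⟩
    refine ⟨g • v, hS g v hv, ?_⟩
    funext f
    simp [ev, pol_smul_apply])

/-- `A(S)` for a `Γ`-stable set `S` -/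
def ASt {Γ E : Type} [Group Γ] [AddCommGroup E] [DistribMulAction Γ E] (S : Set E)
    (hS : ∀ (g : Γ), ∀ v ∈ S, g • v ∈ S) : StSub Γ (Pol E) where
  W := Asub S
  stable := closure_stable _ (by
    rintro g _ ⟨v, hv, rfl | rfl⟩
    · refine ⟨g • v, hS g v hv, Or.inl ?_⟩
      funext f
      simp [ev, pol_smul_apply]
    · refine ⟨g • v, hS g v hv, Or.inr ?_⟩
      funext f
      simp [pol_smul_apply])

/-! ### The matrix group -/

/-- `E = k[t]³` -/
abbrev E3 (k : Type) [Field k] := Fin 3 → Polynomial k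

/-- the elementary matrix `1 + c E_{ij}` as an automorphism: `v ↦ v + c v_j e_i` -/
def tv {k : Type} [Field k] (i j : Fin 3) (h : i ≠ j) (c : Polynomial k) :
    E3 k ≃ₗ[Polynomial k] E3 k where
  toFun v := v + Pi.single i (c * v j)
  invFun v := v - Pi.single i (c * v j)
  map_add' v w := by
    funext l
    by_cases hl : l = i
    · subst hl; simp; ring
    · simp [hl]
  map_smul' r v := by
    funext l
    by_cases hl : l = i
    · subst hl; simp; ring
    · simp [hl]
  left_inv v := by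
    funext l
    by_cases hl : l = i
    · subst hl; simp [Ne.symm h]
    · simp [hl]
  right_inv v := by
    funext l
    by_cases hl : l = i
    · subst hl; simp [Ne.symm h]
    · simp [hl]

theorem tv_apply {k : Type} [Field k] (i j : Fin 3) (h : i ≠ j) (c : Polynomial k) (v : E3 k) :
    tv i j h c v = v + Pi.single i (c * v j) := rfl

/-- `Γ`: generated by `1 + a E₁₂`, `1 + a E₂₃`, `1 + a t E₃₁`, `a ∈ k` -/
def Gam (k : Type) [Field k] : Subgroup (E3 k ≃ₗ[Polynomial k] E3 k) :=
  Subgroup.closure ({g | ∃ a : k, g = tv 0 1 (by decide) (Polynomial.C a)} ∪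
    {g | ∃ a : k, g = tv 1 2 (by decide) (Polynomial.C a)} ∪
    {g | ∃ a : k, g = tv 2 0 (by decide) (Polynomial.C a * Polynomial.X)})

/-- the third basis vector -/
def e3 (k : Type) [Field k] : E3 k := Pi.single 2 1

/-- the orbit of `e₃` -/
def Orb (k : Type) [Field k] : Set (E3 k) := {v | ∃ g : Gam k, v = g • e3 k}

theorem Orb_stable (k : Type) [Field k] (g : Gam k) (v : E3 k) (hv : v ∈ Orb k) :
    g • v ∈ Orb k := by
  obtain ⟨h, rfl⟩ := hv
  exact ⟨g * h, by rw [mul_smul]⟩

/-- the group `G = W ⋊ Γ` -/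
abbrev GG (k : Type) [Field k] : Type := Sd (WSt (Γ := Gam k) (Orb k) (Orb_stable k))

/-- the group `H = A ⋊ Γ` -/
abbrev HH (k : Type) [Field k] : Type := Sd (ASt (Γ := Gam k) (Orb k) (Orb_stable k))

end

end Pool.Agent.W711.CR
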