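import Pool.Agent.W711.CR.Defs

/-!
# MP_434e52_an: the statements of the parts CR-*
-/

set_option autoImplicit false

namespace Pool.Agent.W711.CR

noncomputable section

/-! ### Property (T) -/

/-- CR-PAIR: two orthogonal projections `P`, `P'` whose angle is bounded by `e`. -/
def P_pair : Prop :=
  ∀ (H : Type) [NormedAddCommGroup H] [InnerProductSpace ℂ H] [CompleteSpace H]
    (P P' : H →L[ℂ] H), IsSelfAdjoint P → P * P = P → IsSelfAdjoint P' → P' * P' = P' →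
    ∀ e : ℝ, 0 ≤ e → e < 1 →
    (∀ ξ : H, P ξ = ξ → (∀ ζ : H, P ζ = ζ → P' ζ = ζ → inner ℂ ζ ξ = 0) →
      ‖P' ξ‖ ≤ e * ‖ξ‖) →
    ∀ ξ : H, -e * (‖ξ - P ξ‖ ^ 2 + ‖ξ - P' ξ‖ ^ 2)
      ≤ 2 * (inner ℂ (ξ - P ξ) (ξ - P' ξ) : ℂ).re

/-- CR-GAP: spectral gap of `∑ (1 - P i)` from pairwise estimates. -/
def P_gap : Prop :=
  ∀ (H : Type) [NormedAddCommGroup H] [InnerProductSpace ℂ H] [CompleteSpace H]
    (P : Fin 4 → H →L[ℂ] H), (∀ i, IsSelfAdjoint (P i)) → (∀ i, P i * P i = P i) →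
    ∀ (e : Fin 4 → Fin 4 → ℝ) (c : ℝ), 0 < c → (∀ i j, e i j = e j i) →
    (∀ i j, i ≠ j → ∀ ξ : H, -e i j * (‖ξ - P i ξ‖ ^ 2 + ‖ξ - P j ξ‖ ^ 2)
      ≤ 2 * (inner ℂ (ξ - P i ξ) (ξ - P j ξ) : ℂ).re) →
    (∀ i, ∑ j ∈ Finset.univ.erase i, e i j ≤ 1 - c) →
    (∀ ξ : H, (∀ i, P i ξ = ξ) → ξ = 0) →
    ∀ ξ : H, c * ‖ξ‖ ^ 2 ≤ ∑ i, ‖ξ - P i ξ‖ ^ 2

/-- a Heisenberg triple: three homomorphisms `k → G` with `[x(a), y(b)] = z(ab)` -/
structure Heis (k : Type) [Field k] {G : Type} [Group G] (x y z : k → G) : Prop where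
  x_add : ∀ a b, x (a + b) = x a * x b
  y_add : ∀ a b, y (a + b) = y a * y b
  z_add : ∀ a b, z (a + b) = z a * z b
  comm : ∀ a b, x a * y b = y b * x a * z (a * b)
  zx : ∀ a b, z a * x b = x b * z a
  zy : ∀ a b, z a * y b = y b * z a

/-- CR-HEIS -/
def P_heis : Prop :=
  ∀ (k : Type) [Field k] [Fintype k] (G : Type) [Group G] (x y z : k → G), Heis k x y z →
  ∀ (H : Type) [NormedAddCommGroup H] [InnerProductSpace ℂ H] [CompleteSpace H]
    (π : G →* (H →L[ℂ] H)), (∀ g : G, π g ∈ unitary (H →L[ℂ] H)) →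
    ∀ ξ : H, (∀ b, π (y b) ξ = ξ) →
      (∀ ζ : H, (∀ a, π (x a) ζ = ζ) → (∀ b, π (y b) ζ = ζ) → inner ℂ ζ ξ = 0) →
      ‖(Fintype.card k : ℂ)⁻¹ • ∑ a, π (x a) ξ‖ ≤ (Real.sqrt (Fintype.card k))⁻¹ * ‖ξ‖

/-- CR-POLY: a map with vanishing third differences on a finite group of exponent `2` is
trivial or nontrivial on at least a quarter of the group. -/
def P_poly : Prop :=
  ∀ (K : Type) [AddCommGroup K] [Fintype K] (A : Type) [CommGroup A] (f : K → A),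
    (∀ a : K, a + a = 0) →
    (∀ s a b c : K, f (s + a + b + c) * f (s + a) * f (s + b) * f (s + c)
      = f (s + a + b) * f (s + a + c) * f (s + b + c) * f s) →
    (∃ a, f a ≠ 1) → Nat.card K ≤ 4 * Nat.card {a : K // f a ≠ 1}

/-- CR-ORB: `x` and `y`; the conjugates `x(a) y x(a)⁻¹` lie in a commutative group and depend
on `a` like a polynomial of degree `≤ 2`. -/
def P_orb : Prop :=
  ∀ (K : Type) [AddCommGroup K] [Fintype K] (G N : Type) [Group G] [CommGroup N]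
    (x : K → G) (y : G) (ι : N →* G) (n : K → N),
    (∀ a : K, a + a = 0) → (∀ a b, x (a + b) = x a * x b) →
    (∀ a, ι (n a) = x a * y * (x a)⁻¹) → (∀ a, n a ^ 4 = 1) →
    (∀ s a b c : K, n (s + a + b + c) * n (s + a) * n (s + b) * n (s + c)
      = n (s + a + b) * n (s + a + c) * n (s + b + c) * n s) →
  ∀ (H : Type) [NormedAddCommGroup H] [InnerProductSpace ℂ H] [CompleteSpace H]
    (π : G →* (H →L[ℂ] H)), (∀ g : G, π g ∈ unitary (H →L[ℂ] H)) →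
    ∀ ξ : H, (∀ a, π (x a) ξ = ξ) →
      (∀ ζ : H, (∀ a, π (x a) ζ = ζ) → π y ζ = ζ → inner ℂ ζ ξ = 0) →
      ‖(4 : ℂ)⁻¹ • ∑ j ∈ Finset.range 4, π (y ^ j) ξ‖ ≤ 7 / 8 * ‖ξ‖

/-- data in a group `G` from which property (T) follows -/
structure TData (k : Type) [Field k] (G : Type) [Group G] : Prop where
  two : ∀ a : k, a + a = 0
  data : ∃ (x z : Fin 3 → k → G) (y : G) (N : Type) (_ : CommGroup N) (ι : N →* G) (n : k → N),
    (∀ i, Heis k (x i) (x (i + 1)) (z i)) ∧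
    (∀ a, y * x 0 a = x 0 a * y) ∧ (∀ a, y * x 2 a = x 2 a * y) ∧
    (∀ a, ι (n a) = x 1 a * y * (x 1 a)⁻¹) ∧ (∀ a, n a ^ 4 = 1) ∧
    (∀ s a b c : k, n (s + a + b + c) * n (s + a) * n (s + b) * n (s + c)
      = n (s + a + b) * n (s + a + c) * n (s + b + c) * n s) ∧
    Subgroup.closure ({g | ∃ i a, g = x i a} ∪ {y}) = ⊤

/-- CR-T: from `P_pair`, `P_gap`, `P_heis`, `P_orb` -/
def P_T : Prop :=
  ∀ (k : Type) [Field k] [Finite k] (G : Type) [Group G], 512 ≤ Nat.card k → TData k G → HasT G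

/-- CR-TD: the group `GG k` has these data -/
def P_TD : Prop :=
  ∀ (k : Type) [Field k] [Finite k] [CharP k 2], TData k (GG k)

/-! ### The isomorphism of the von Neumann algebras -/

/-- CR-L: an isomorphism of the complex group algebras `ℂ[H] → ℂ[G]`, `δ_h ↦ c h`, compatible
with the involution and the trace gives an isomorphism of the von Neumann algebras. -/
def P_L : Prop :=
  ∀ (G H : Type) [Group G] [Group H] (c : H → (G →₀ ℂ)),
    c 1 = Finsupp.single 1 1 →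
    (∀ h h' : H, c (h * h') = (c h).sum fun x s => (c h').sum fun y t =>
      Finsupp.single (x * y) (s * t)) →
    (∀ (h : H) (g : G), c h⁻¹ g = (starRingEnd ℂ) (c h g⁻¹)) →
    (∀ h : H, h ≠ 1 → c h 1 = 0) →
    Submodule.span ℂ (Set.range c) = ⊤ →
    LIso G H

/-- CR-SEMI: from `P_L` -/
def P_semi : Prop :=
  ∀ (Γ X : Type) [Group Γ] [MulAction Γ X] (S T : StSub Γ X), GoodPair S.W T.W →
    LIso (Sd S) (Sd T)

/-- CR-GOOD -/
def P_good : Prop :=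
  ∀ (E : Type) [AddCommGroup E], (∀ v : E, v + v = 0) → ∀ S : Set E,
    GoodPair (Wsub S) (Asub S)

/-! ### The two groups are not virtually isomorphic -/

/-- CR-SEP: the functions `2 • ev v` depend additively on `v` and separate the points -/
def P_sep : Prop :=
  ∀ (E : Type) [AddCommGroup E], (∀ v : E, v + v = 0) →
    (∀ v w : E, (2 • ev (v + w) : Fn (Pol E)) = 2 • ev v + 2 • ev w) ∧
    (∀ v : E, (2 • ev v : Fn (Pol E)) = 0 → v = 0) ∧
    (∀ S : Set E, ∀ a ∈ Asub S, a + a = 0) ∧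
    (∀ S : Set E, ∀ v ∈ AddSubgroup.closure S, (2 • ev v : Fn (Pol E)) ∈ Asub S)

/-- CR-MAT: facts about the matrix group -/
def P_mat : Prop :=
  ∀ (k : Type) [Field k] [CharP k 2],
    (∀ (i j : Fin 3) (h : i ≠ j) (m : ℕ), 1 ≤ m →
      tv i j h (Polynomial.X ^ m : Polynomial k) ∈ Gam k) ∧
    (∀ (j : Fin 3) (m : ℕ), 1 ≤ m →
      (Pi.single j (Polynomial.X ^ m : Polynomial k) : E3 k) ∈ AddSubgroup.closure (Orb k)) ∧
    (∀ n : E3 k →ₗ[Polynomial k] E3 k,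
      (∀ v, n (n v) = 0) →
      (∀ (i j : Fin 3) (h : i ≠ j), ∃ r : Polynomial k, r ≠ 0 ∧
        ∀ v, n (tv i j h r (n v)) = 0) → n = 0)

/-- CR-C: from `P_sep` and `P_mat` -/
def P_C : Prop :=
  ∀ (k : Type) [Field k] [CharP k 2], ¬ VIso (GG k) (HH k)

/-- CR-CNT: countability -/
def P_cnt : Prop :=
  ∀ (k : Type) [Field k] [Finite k], Countable (GG k) ∧ Countable (HH k)

end

end Pool.Agent.W711.CR
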